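import Pool.Agent.Helper10.RC.Basic

open scoped ENNReal NNReal InnerProductSpace ComplexOrder
open Filter Topology

attribute [-instance] CStarMatrix.instAlgebra CStarMatrix.instModule CStarMatrix.instSMul
  CStarMatrix.instMulAction CStarMatrix.instDistribMulAction

noncomputable section
namespace RC
universe u

section SL1
variable {A : Type u} [CStarAlgebra A] {G : Type} (α : G → A ≃⋆ₐ[ℂ] A)

/-- the functions `g ↦ ∑ a_i α_g(b_i)` -/
def JJ (f : G → A) : Prop := ∃ (ι : Type) (_ : Fintype ι) (a b : ι → A),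
  ∀ g, f g = ∑ i, a i * α g (b i)

variable {α}

theorem JJ.zero : JJ α (fun _ => 0) := ⟨Empty, inferInstance, fun _ => 0, fun _ => 0, by simp⟩

theorem JJ.one : JJ α (fun _ => 1) := ⟨Unit, inferInstance, fun _ => 1, fun _ => 1, by simp⟩

theorem JJ.add {f f' : G → A} (h : JJ α f) (h' : JJ α f') : JJ α (fun g => f g + f' g) := by
  obtain ⟨ι, _, a, b, hf⟩ := h
  obtain ⟨ι', _, a', b', hf'⟩ := h'
  refine ⟨ι ⊕ ι', inferInstance, Sum.elim a a', Sum.elim b b', fun g => ?_⟩
  rw [Fintype.sum_sum_type]
  simp [hf, hf']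

theorem JJ.left {f : G → A} (h : JJ α f) (x : A) : JJ α (fun g => x * f g) := by
  obtain ⟨ι, _, a, b, hf⟩ := h
  refine ⟨ι, inferInstance, fun i => x * a i, b, fun g => ?_⟩
  simp only [hf, Finset.mul_sum, mul_assoc]

theorem JJ.right {f : G → A} (h : JJ α f) (y : A) : JJ α (fun g => f g * α g y) := by
  obtain ⟨ι, _, a, b, hf⟩ := h
  refine ⟨ι, inferInstance, a, fun i => b i * y, fun g => ?_⟩
  simp only [hf, Finset.sum_mul, mul_assoc, map_mul]

theorem JJ.neg {f : G → A} (h : JJ α f) : JJ α (fun g => -f g) := by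
  have := h.left (-1)
  simpa using this

theorem JJ.sub {f f' : G → A} (h : JJ α f) (h' : JJ α f') : JJ α (fun g => f g - f' g) := by
  have := h.add h'.neg
  simpa [sub_eq_add_neg] using this

theorem JJ.sum {ι : Type} (s : Finset ι) (f : ι → G → A) (h : ∀ i ∈ s, JJ α (f i)) :
    JJ α (fun g => ∑ i ∈ s, f i g) := by
  classical
  induction s using Finset.induction_on with
  | empty => simpa using JJ.zero
  | insert a s ha ih =>
    simp only [Finset.sum_insert ha]
    exact (h a (Finset.mem_insert_self a s)).add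
      (ih fun i hi => h i (Finset.mem_insert_of_mem hi))

end SL1

theorem sL1P : SL1P.{u} := by
  intro A _ G _ _ α hact hsimp
  classical
  -- a maximal good set
  let Good : Finset G → Prop := fun T => ∀ f : G → A, JJ α f → (∀ g, g ∉ T → f g = 0) → f = 0
  have hG0 : Good ∅ := fun f _ hs => funext fun g => hs g (Finset.notMem_empty g)
  obtain ⟨T, hT, hmax⟩ := Finset.exists_max_image (Finset.univ.filter Good) Finset.card
    ⟨∅, Finset.mem_filter.2 ⟨Finset.mem_univ _, hG0⟩⟩
  have hTg : Good T := (Finset.mem_filter.1 hT).2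
  have hV : ∀ g : G, ∃ v : G → A, JJ α v ∧ ∀ k, k ∉ T → v k = if k = g then 1 else 0 := by
    intro g
    by_cases hg : g ∈ T
    · refine ⟨fun _ => 0, JJ.zero, fun k hk => ?_⟩
      rw [if_neg]
      rintro rfl
      exact hk hg
    · have hng : ¬ Good (insert g T) := by
        intro hgood
        have h1 := hmax (insert g T) (Finset.mem_filter.2 ⟨Finset.mem_univ _, hgood⟩)
        rw [Finset.card_insert_of_notMem hg] at h1
        omega
      simp only [Good] at hng
      push Not at hng
      obtain ⟨f, hJ, hs, hne⟩ := hng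
      have hfg : f g ≠ 0 := by
        intro h0
        refine hne (hTg f hJ fun k hk => ?_)
        by_cases hkg : k = g
        · rw [hkg, h0]
        · exact hs k (by simp [hkg, hk])
      obtain ⟨n, p, q, hpq⟩ := hsimp.2 (f g) hfg
      refine ⟨fun k => ∑ i, p i * f k * α k ((α g).symm (q i)), ?_, fun k hk => ?_⟩
      · exact JJ.sum Finset.univ _ fun i _ => (hJ.left (p i)).right _
      · by_cases hkg : k = g
        · subst hkg
          rw [if_pos rfl, ← hpq]
          refine Finset.sum_congr rfl fun i _ => ?_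
          rw [StarAlgEquiv.apply_symm_apply]
        · rw [if_neg hkg]
          refine Finset.sum_eq_zero fun i _ => ?_
          rw [hs k (by simp [hkg, hk]), mul_zero, zero_mul]
  choose V hVJ hVs using hV
  have ha : ∀ (x : A) (g k : G), x * V g k = V g k * α k ((α g).symm x) := by
    intro x g k
    have h := hTg (fun k => x * V g k - V g k * α k ((α g).symm x))
      (((hVJ g).left x).sub ((hVJ g).right _)) (fun k hk => by
        rw [hVs g k hk]
        split_ifs with h
        · subst h
          rw [StarAlgEquiv.apply_symm_apply, mul_one, one_mul, sub_self]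
        · rw [mul_zero, zero_mul, sub_self])
    exact sub_eq_zero.1 (congrFun h k)
  have hb : ∀ k : G, ∑ h, V h k = 1 := by
    intro k
    have h := hTg (fun k => ∑ h, V h k - 1) ((JJ.sum Finset.univ _ fun h _ => hVJ h).sub JJ.one)
      (fun k hk => by
        simp only [hVs _ k hk]
        rw [Finset.sum_ite_eq, if_pos (Finset.mem_univ _), sub_self])
    exact sub_eq_zero.1 (congrFun h k)
  choose ι hι a b hab using hVJ
  let e := Fintype.equivFin (Σ h : G, ι h)
  have hcard : ((Fintype.card G : ℕ) : ℂ) ≠ 0 := by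
    have : Nonempty G := ⟨1⟩
    exact_mod_cast Fintype.card_ne_zero
  have hform : ∀ g : G, ∑ h, V h (g * h) = ∑ i : Fin (Fintype.card (Σ h : G, ι h)),
      a (e.symm i).1 (e.symm i).2 * α g (α (e.symm i).1 (b (e.symm i).1 (e.symm i).2)) := by
    intro g
    rw [Equiv.sum_comp e.symm (fun s : Σ h : G, ι h => a s.1 s.2 * α g (α s.1 (b s.1 s.2))),
      Fintype.sum_sigma]
    refine Finset.sum_congr rfl fun h _ => ?_
    rw [hab]
    exact Finset.sum_congr rfl fun i _ => by rw [hact]
  refine ⟨Fintype.card (Σ h : G, ι h), fun i => a (e.symm i).1 (e.symm i).2,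
    fun i => α (e.symm i).1 (b (e.symm i).1 (e.symm i).2),
    fun g => (Fintype.card G : ℂ)⁻¹ • ∑ h, V h (g * h), fun g => by
      beta_reduce
      rw [hform], ?_, ?_⟩
  · intro x g
    rw [mul_smul_comm, smul_mul_assoc, Finset.mul_sum, Finset.sum_mul]
    congr 1
    refine Finset.sum_congr rfl fun h _ => ?_
    rw [ha, hact, StarAlgEquiv.apply_symm_apply]
  · rw [← Finset.smul_sum, Finset.sum_comm]
    have h1 : ∀ h : G, ∑ g, V h (g * h) = ∑ k, V h k := fun h =>
      Equiv.sum_comp (Equiv.mulRight h) (fun k => V h k)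
    simp only [h1]
    rw [Finset.sum_comm]
    simp only [hb]
    rw [Finset.sum_const, Finset.card_univ, ← Nat.cast_smul_eq_nsmul ℂ, smul_smul,
      inv_mul_cancel₀ hcard, one_smul]

end RC
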